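/-
Piece PRJ of the project COUNTEREXAMPLE TO THE NAKAYAMA CONJECTURE: the terms of the complexes are
projective.
-/
import Pool.Agent.Run7.h433.Nak.Iface

set_option autoImplicit false

namespace Run7.h433.Nak

namespace PRJ

/-- products of submodules -/
theorem proj_prod {R M N : Type} [Ring R] [AddCommGroup M] [Module R M] [AddCommGroup N] [Module R N]
    (p : Submodule R M) (q : Submodule R N) (hp : Module.Projective R ↥p)
    (hq : Module.Projective R ↥q) : Module.Projective R ↥(p.prod q) := by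
  let e : (↥p × ↥q) ≃ₗ[R] ↥(p.prod q) :=
    { toFun := fun x => ⟨(x.1.1, x.2.1), ⟨x.1.2, x.2.2⟩⟩
      invFun := fun x => (⟨x.1.1, x.2.1⟩, ⟨x.1.2, x.2.2⟩)
      map_add' := fun _ _ => rfl
      map_smul' := fun _ _ => rfl
      left_inv := fun _ => rfl
      right_inv := fun _ => rfl }
  exact Module.Projective.of_equiv e

theorem proj_bot (R M : Type) [Ring R] [AddCommGroup M] [Module R M] :
    Module.Projective R ↥(⊥ : Submodule R M) := inferInstance

variable (V : Type) [AddCommGroup V] [Module ℚ V]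

/-- linear maps of the coefficients on the graded pieces -/
def cL {V V' : Type} [AddCommGroup V] [Module ℚ V] [AddCommGroup V'] [Module ℚ V'] (m : V →ₗ[ℚ] V')
    (i : ZMod 2) (g : ℤ) : ↥(Wg V i g) →ₗ[T] ↥(Wg V' i g) :=
  (mkT (oL m) (isT_oL m)).restrict fun x hx τ r h => hx τ r fun h0 => h (by
    show m (x τ r) = 0
    rw [h0, map_zero])

theorem cL_apply {V V' : Type} [AddCommGroup V] [Module ℚ V] [AddCommGroup V'] [Module ℚ V']
    (m : V →ₗ[ℚ] V') (i : ZMod 2) (g : ℤ) (x : ↥(Wg V i g)) : (cL m i g x).1 = oL m x.1 := rfl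

theorem proj_Wg (h : S_TST) [Module.Finite ℚ V] (σ : Vt) :
    Module.Projective T ↥(Wg V (vI σ) (vG σ)) := by
  obtain ⟨s, hs⟩ := h.sec σ
  have hmem : ∀ v : V, sg σ 0 v ∈ Wg V (vI σ) (vG σ) := by
    intro v
    have h1 := h.sg_mem V σ 0 v
    have e1 : sI σ 0 = (vI σ : ZMod 2) := by
      unfold sI nI
      simp
    have e2 : sG σ 0 = vG σ := by
      unfold sG nG
      simp
    rwa [e1, e2] at h1
  let b := Module.finBasis ℚ V
  let f : ↥(Wg V (vI σ) (vG σ)) →ₗ[T] (Fin (Module.finrank ℚ V) → T) :=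
    LinearMap.pi fun j => s ∘ₗ cL (b.coord j) _ _
  let g : (Fin (Module.finrank ℚ V) → T) →ₗ[T] ↥(Wg V (vI σ) (vG σ)) :=
    ∑ j, (LinearMap.toSpanSingleton T _ (⟨sg σ 0 (b j), hmem _⟩ : ↥(Wg V (vI σ) (vG σ)))) ∘ₗ LinearMap.proj j
  refine Module.Projective.of_split f g (LinearMap.ext fun x => Subtype.ext ?_)
  have h1 : ∀ j, s (cL (b.coord j) _ _ x) • (sg σ 0 (b j) : W V) =
      oL ((LinearMap.toSpanSingleton ℚ V (b j)) ∘ₗ b.coord j) x.1 := by
    intro j
    have e1 : (sg σ 0 (b j) : W V) = oL (LinearMap.toSpanSingleton ℚ V (b j)) (sg σ 0 1) := by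
      funext τ r
      rw [oL_apply]
      unfold sg
      split_ifs
      · rw [LinearMap.toSpanSingleton_apply, one_smul]
      · rw [map_zero]
    rw [e1, ← isT_oL, hs]
    rfl
  show (g (f x)).1 = x.1
  have h2 : g (f x) = ∑ j, (s (cL (b.coord j) _ _ x)) • (⟨sg σ 0 (b j), hmem _⟩ : ↥(Wg V (vI σ) (vG σ))) := by
    simp only [g, LinearMap.sum_apply]
    rfl
  rw [h2, Submodule.coe_sum]
  have h3 : ∀ j, ((s (cL (b.coord j) _ _ x) • (⟨sg σ 0 (b j), hmem _⟩ : ↥(Wg V (vI σ) (vG σ))) :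
      ↥(Wg V (vI σ) (vG σ))) : W V) = oL ((LinearMap.toSpanSingleton ℚ V (b j)) ∘ₗ b.coord j) x.1 :=
    fun j => h1 j
  rw [Finset.sum_congr rfl fun j _ => h3 j]
  funext τ r
  have h4 : (∑ j, oL ((LinearMap.toSpanSingleton ℚ V (b j)) ∘ₗ b.coord j) x.1 : W V) τ r =
      ∑ j, (b.coord j (x.1 τ r)) • b j := by
    have h5 : ∀ (S : Finset (Fin (Module.finrank ℚ V))),
        (∑ j ∈ S, oL ((LinearMap.toSpanSingleton ℚ V (b j)) ∘ₗ b.coord j) x.1 : W V) τ r =
          ∑ j ∈ S, (b.coord j (x.1 τ r)) • b j := by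
      intro S
      classical
      induction S using Finset.induction_on with
      | empty => rfl
      | insert j S hj ih =>
        rw [Finset.sum_insert hj, Finset.sum_insert hj, ← ih]
        rfl
    exact h5 _
  rw [h4]
  simp only [Module.Basis.coord_apply]
  exact b.sum_repr (x.1 τ r)

theorem exists_vertex : ∀ (i : ZMod 2) (j : Fin 3) (w : Fin 2), ∃ σ : Vt, (vI σ : ZMod 2) = i ∧
    vG σ = 2 * (j : ℕ) - 3 * (w : ℕ) := by
  decide

theorem proj_Wg' (h : S_TST) [Module.Finite ℚ V] (i : ZMod 2) (g : ℤ)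
    (hg : ∃ (j : Fin 3) (w : Fin 2), g = 2 * (j : ℕ) - 3 * (w : ℕ)) : Module.Projective T ↥(Wg V i g) := by
  obtain ⟨j, w, rfl⟩ := hg
  obtain ⟨σ, h1, h2⟩ := exists_vertex i j w
  rw [← h1, ← h2]
  exact proj_Wg V h σ

theorem proj_Cg (h : S_TST) [Module.Finite ℚ V] (γ : ℤ) (w : Fin 2) (hγ : γ = -3 * (w : ℕ)) (n : ℕ) :
    Module.Projective T ↥(Cg V γ n) := by
  have e : Cg V γ n = (Wg V n γ).prod ((if n = 0 then ⊥ else Wg V (n + 1) (γ + 2)).prod
      (if n < 2 then ⊥ else Wg V n (γ + 4))) := by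
    ext x
    constructor
    · rintro ⟨h1, ⟨h2, h3⟩, ⟨h4, h5⟩⟩
      refine ⟨h1, ?_, ?_⟩
      · show x.2.1 ∈ (if n = 0 then ⊥ else Wg V (n + 1) (γ + 2))
        split_ifs with hn
        · exact (Submodule.mem_bot T).2 (h3 hn)
        · exact h2
      · show x.2.2 ∈ (if n < 2 then ⊥ else Wg V n (γ + 4))
        split_ifs with hn
        · exact (Submodule.mem_bot T).2 (h5 hn)
        · exact h4
    · rintro ⟨h1, h2, h4⟩
      replace h2 : x.2.1 ∈ (if n = 0 then ⊥ else Wg V (n + 1) (γ + 2)) := h2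
      replace h4 : x.2.2 ∈ (if n < 2 then ⊥ else Wg V n (γ + 4)) := h4
      refine ⟨h1, ⟨?_, fun hn => ?_⟩, ⟨?_, fun hn => ?_⟩⟩
      · split_ifs at h2 with hn
        · rw [(Submodule.mem_bot T).1 h2]
          exact zero_mem _
        · exact h2
      · rw [if_pos hn] at h2
        exact (Submodule.mem_bot T).1 h2
      · split_ifs at h4 with hn
        · rw [(Submodule.mem_bot T).1 h4]
          exact zero_mem _
        · exact h4
      · rw [if_pos hn] at h4
        exact (Submodule.mem_bot T).1 h4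
  rw [e]
  refine proj_prod _ _ (proj_Wg' V h _ _ ⟨0, w, by rw [hγ]; simp⟩) (proj_prod _ _ ?_ ?_)
  · by_cases hn : n = 0
    · rw [if_pos hn]
      exact proj_bot _ _
    · rw [if_neg hn]
      exact proj_Wg' V h _ _ ⟨1, w, by rw [hγ]; simp; ring⟩
  · by_cases hn : n < 2
    · rw [if_pos hn]
      exact proj_bot _ _
    · rw [if_neg hn]
      exact proj_Wg' V h _ _ ⟨2, w, by rw [hγ]; simp; ring⟩

end PRJ

theorem t_PRJ (h : S_TST) (h' : S_VS) : S_PRJ := by
  intro m n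
  have := h'.fin m
  have := h'.fin (m + 1)
  cases n with
  | zero => exact PRJ.proj_prod _ _ (PRJ.proj_Cg _ h 0 0 (by simp) 0) (PRJ.proj_bot _ _)
  | succ k => exact PRJ.proj_prod _ _ (PRJ.proj_Cg _ h 0 0 (by simp) (k + 1)) (PRJ.proj_Cg _ h (-3) 1 (by simp) k)

end Run7.h433.Nak
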